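import Pool.Agent.MWHP.StmtsN

/-!
# Block MWHP, row RPN: an occurrence of a heavy letter may be replaced by `n m + 1`
-/

set_option autoImplicit false

namespace Pool.Agent.MWHP.H7

open Pool.Agent.Helper14_MV Pool.Agent.Helper2_MV Pool.Agent.MVO Pool.Agent.MWL Pool.Agent.MWS
open Pool.Agent.MWA Pool.Agent.MWH

theorem filt_rep (x j : ℕ) : (List.replicate j x).filter (fun c => decide (c ≠ x)) = [] := by
  rw [List.filter_eq_nil_iff]
  intro c hc
  rw [List.eq_of_mem_replicate hc]
  simp

theorem rep_mod (n m a : ℕ) : a ≡ n * m + a [MOD n] := by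
  unfold Nat.ModEq
  rw [Nat.add_comm, Nat.add_mul_mod_self_left]

theorem rpn (hInt : IntStmt) : RpnStmt := by
  intro n β hI k B hB i hi x P Q m hPQ h2
  obtain ⟨S, hS⟩ : ∃ S, S = pre B i := ⟨_, rfl⟩
  obtain ⟨T, hT⟩ : ∃ T, T = suf B i (k - i) := ⟨_, rfl⟩
  have hw : ∀ L, asm k (Function.update B i L) = S ++ L ++ T := by
    intro L
    rw [asm_update hi, hS, hT]
  have hw0 : asm k B = S ++ (P ++ x :: Q) ++ T := by
    rw [asm_split hi B, ← hS, ← hT, hPQ]
  have hcount : ∀ c ∈ B i, 2 ≤ (S ++ (P ++ x :: Q) ++ T).count c := by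
    intro c hc
    rw [← hw0, count_asm (hB.ok i hi c hc)]
    exact hB.ml i hi c hc
  rw [hw, hw0]
  by_cases hx : x ∈ P
  · obtain ⟨P1, P2, rfl⟩ := List.append_of_mem hx
    have e1 : S ++ ((P1 ++ x :: P2) ++ x :: Q) ++ T = (S ++ P1) ++ x :: (P2 ++ x :: (Q ++ T)) := by
      simp
    have e2 : S ++ ((P1 ++ x :: P2) ++ (List.replicate (n * m + 1) x ++ Q)) ++ T
        = (S ++ P1) ++ x :: ((P2 ++ List.replicate (n * m) x) ++ x :: (Q ++ T)) := by
      rw [List.replicate_succ']
      simp
    have h3 := hInt n β hI (S ++ P1) P2 (P2 ++ List.replicate (n * m) x) (Q ++ T) x (by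
      intro c hc _
      rw [← e1]
      refine hcount c ?_
      rw [hPQ]
      simp [hc]) (by
      rw [List.filter_append, filt_rep, List.append_nil]) (by
      rw [List.count_append, List.count_replicate_self, Nat.add_comm]
      exact rep_mod n m _)
    rw [← e1, ← e2] at h3
    exact h3
  · have hxQ : x ∈ Q := by
      have h5 : (P ++ x :: Q).count x = Q.count x + 1 := by
        rw [List.count_append, List.count_eq_zero_of_not_mem hx, List.count_cons_self, Nat.zero_add]
      rw [hPQ, h5] at h2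
      apply List.count_pos_iff.1
      omega
    obtain ⟨Q1, Q2, rfl⟩ := List.append_of_mem hxQ
    have e1 : S ++ (P ++ x :: (Q1 ++ x :: Q2)) ++ T = (S ++ P) ++ x :: (Q1 ++ x :: (Q2 ++ T)) := by
      simp
    have e2 : S ++ (P ++ (List.replicate (n * m + 1) x ++ (Q1 ++ x :: Q2))) ++ T
        = (S ++ P) ++ x :: ((List.replicate (n * m) x ++ Q1) ++ x :: (Q2 ++ T)) := by
      rw [List.replicate_succ]
      simp
    have h3 := hInt n β hI (S ++ P) Q1 (List.replicate (n * m) x ++ Q1) (Q2 ++ T) x (by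
      intro c hc _
      rw [← e1]
      refine hcount c ?_
      rw [hPQ]
      simp [hc]) (by
      rw [List.filter_append, filt_rep, List.nil_append]) (by
      rw [List.count_append, List.count_replicate_self]
      exact rep_mod n m _)
    rw [← e1, ← e2] at h3
    exact h3

end Pool.Agent.MWHP.H7
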