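import Pool.Agent.MWHP.StmtsP
import Pool.Agent.Helper7_MWH.PSR

/-!
# Block MWHP, row PSR: push; letters `1` may come from the right into the common block (period `n`)
-/

set_option autoImplicit false

namespace Pool.Agent.MWHP.H7

open Pool.Agent.Helper14_MV Pool.Agent.Helper2_MV Pool.Agent.MVO Pool.Agent.MWL Pool.Agent.MWS
open Pool.Agent.MWA Pool.Agent.MWH Pool.Agent.MWH.H7 Pool.Agent.MWH.H60

theorem sh_deg {k : ℕ} {a b : ℕ → ℕ} (h : Sh k a b) (hb : 2 ≤ deg k b) : 2 ≤ deg k a := by
  by_cases h2 : ∃ j ≤ k, 2 ≤ a j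
  · obtain ⟨j, hj, h2⟩ := h2
    refine h2.trans ?_
    unfold deg
    exact Finset.single_le_sum (f := a) (fun _ _ => Nat.zero_le _)
      (Finset.mem_range.2 (by omega))
  · have e : deg k a = deg k b := by
      unfold deg
      apply Finset.sum_congr rfl
      intro j hj
      rw [Finset.mem_range] at hj
      rcases h j (by omega) with h3 | h3
      · exact h3
      · exact absurd ⟨j, by omega, h3.1⟩ h2
    rw [e]
    exact hb

/-- the number of the added letters -/
def ex (n k : ℕ) (f a a' : ℕ → ℕ) (j : ℕ) : ℕ :=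
  if 2 ≤ a' j then (n - 1) * psh k f a j + a' j else a' j - psh k f a j

theorem dm_eq {n k k' : ℕ} (hn : 1 ≤ n) {f a a' : ℕ → ℕ} (h : Dm k k' f a a') {j' : ℕ}
    (hj : j' ≤ k') : psh k f a j' + ex n k f a a' j' = a' j' ∨
      (2 ≤ psh k f a j' + ex n k f a a' j' ∧ 2 ≤ a' j' ∧
        psh k f a j' + ex n k f a a' j' ≡ a' j' [MOD n]) := by
  unfold ex
  by_cases h2 : 2 ≤ a' j'
  · right
    rw [if_pos h2]
    obtain ⟨m, rfl⟩ : ∃ m, n = m + 1 := ⟨n - 1, by omega⟩
    have e : psh k f a j' + ((m + 1 - 1) * psh k f a j' + a' j') =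
        (m + 1) * psh k f a j' + a' j' := by
      rw [Nat.add_sub_cancel]
      ring
    refine ⟨by omega, h2, ?_⟩
    rw [e]
    show ((m + 1) * psh k f a j' + a' j') % (m + 1) = a' j' % (m + 1)
    rw [Nat.mul_add_mod]
  · rw [if_neg h2]
    rcases dm_shape h hj with h3 | h3
    · exact Or.inl h3
    · exact absurd h3.2 h2

/-- the letters added in the other blocks -/
def Qn (n k : ℕ) (f a b a' b' : ℕ → ℕ) (i : ℕ) : ℕ → List ℕ := fun j' =>
  if j' = f i then [] else
    List.replicate (ex n k f a a' j') 0 ++ List.replicate (ex n k f b b' j') 1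

/-- general push -/
theorem push_gen (nfe : NfeStmt) (okw : Pool.Agent.MWH.OkwStmt) (shw : ShwStmt) {n : ℕ}
    {β θ : FIC} (hβ : BaseH n β) (hle : β ≤ θ)
    {k k' : ℕ} {f a b a' b' : ℕ → ℕ} {i : ℕ} (hf : BMap k k' f) (hV : Vd k a b i)
    (hV' : Vd k' a' b' (f i)) (hDa : Dm k k' f a a') (hDb : Dm k k' f b b') {s s' : Stt}
    (hs : Vs a b i s) (hs' : Vs a b i s')
    (ha : psh k f a (f i) = a' (f i) ∨ (2 ≤ psh k f a (f i) ∧ 2 ≤ a' (f i)))
    (hb : psh k f b (f i) = b' (f i) ∨ (2 ≤ psh k f b (f i) ∧ 2 ≤ b' (f i)))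
    (hfact : ∀ t, t = s ∨ t = s' → (Bef (pshB k f (W a b i t) (f i)) 0 1 ↔ t = Stt.xy) ∧
      (Bef (pshB k f (W a b i t) (f i)) 1 0 ↔ t = Stt.yx))
    (h : Tr θ k a b i s s') : Tr θ k' a' b' (f i) s s' := by
  obtain ⟨a2, ha2⟩ : ∃ a2 : ℕ → ℕ, a2 = fun j => if j = f i then psh k f a (f i) else a' j :=
    ⟨_, rfl⟩
  obtain ⟨b2, hb2⟩ : ∃ b2 : ℕ → ℕ, b2 = fun j => if j = f i then psh k f b (f i) else b' j :=
    ⟨_, rfl⟩
  have a2i : a2 (f i) = psh k f a (f i) := by rw [ha2]; exact if_pos rfl
  have b2i : b2 (f i) = psh k f b (f i) := by rw [hb2]; exact if_pos rfl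
  have a2j : ∀ j, j ≠ f i → a2 j = a' j := fun j hj => by rw [ha2]; exact if_neg hj
  have b2j : ∀ j, j ≠ f i → b2 j = b' j := fun j hj => by rw [hb2]; exact if_neg hj
  have hSa : Sh k' a2 a' := by
    intro j _
    by_cases hj : j = f i
    · rw [hj, a2i]
      exact ha
    · exact Or.inl (a2j j hj)
  have hSb : Sh k' b2 b' := by
    intro j _
    by_cases hj : j = f i
    · rw [hj, b2i]
      exact hb
    · exact Or.inl (b2j j hj)
  have hga := psh_ge (f := f) (a := a) hV.ik
  have hgb := psh_ge (f := f) (a := b) hV.ik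
  have hV2 : Vd k' a2 b2 (f i) :=
    { ik := hV'.ik
      ai := by rw [a2i]; have := hV.ai; omega
      bi := by rw [b2i]; have := hV.bi; omega
      un := fun j hj hji => by rw [a2j j hji, b2j j hji]; exact hV'.un j hj hji
      da := sh_deg hSa hV'.da
      db := sh_deg hSb hV'.db }
  have hsA : ∀ t, Vs a b i t → Vs a2 b2 (f i) t := by
    intro t ht ho
    rw [a2i, b2i]
    rcases ht ho with h1 | h1
    · exact Or.inl (by omega)
    · exact Or.inr (by omega)
  refine (shw n β θ hβ hle k' a2 b2 a' b' (f i) hV2 hV' hSa hSb s s' (hsA s hs) (hsA s' hs')).1 ?_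
  have hmem : ∀ t, Vs a b i t → ∀ j, ∀ c ∈ pshB k f (W a b i t) j, c = 0 ∨ c = 1 := by
    intro t ht j c hc
    obtain ⟨j0, -, -, h2⟩ := mem_pshB.1 hc
    exact (okw k a b i t hV ht).2.2.2.1 j0 c h2
  have hblk : ∀ t, Vs a b i t → BlkOk k' (pshB k f (W a b i t)) := by
    intro t ht j _ c hc
    unfold NS
    rcases hmem t ht j c hc with rfl | rfl <;> omega
  have h1 := rr_push θ hf (okw k a b i s hV hs).1.ok (okw k a b i s' hV hs').1.ok h
  have h2 := rr_ins' θ (fun _ => []) (Qn n k f a b a' b' i) (hblk s hs) (hblk s' hs') h1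
  have key : ∀ t, (t = s ∨ t = s') → Vs a b i t →
      RR β (asm k' (fun j => [] ++ pshB k f (W a b i t) j ++ Qn n k f a b a' b' i j))
        (asm k' (W a2 b2 (f i) t)) := by
    intro t htt ht
    have htA := hsA t ht
    obtain ⟨o1, o2, o3, o4, o5, o6⟩ := okw k a b i t hV ht
    obtain ⟨p1, p2, p3, p4, p5, p6⟩ := okw k' a2 b2 (f i) t hV2 htA
    have c0 : ∀ j, (pshB k f (W a b i t) j).count 0 = psh k f a j := by
      intro j
      rw [count_pshB']
      have : (fun i_1 => (W a b i t i_1).count 0) = a := funext fun j => (o3 j).1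
      rw [this]
    have c1 : ∀ j, (pshB k f (W a b i t) j).count 1 = psh k f b j := by
      intro j
      rw [count_pshB']
      have : (fun i_1 => (W a b i t i_1).count 1) = b := funext fun j => (o3 j).2
      rw [this]
    have q0 : ∀ j, (Qn n k f a b a' b' i j).count 0 =
        if j = f i then 0 else ex n k f a a' j := by
      intro j
      unfold Qn
      split_ifs
      · rfl
      · simp [List.count_replicate]
    have q1 : ∀ j, (Qn n k f a b a' b' i j).count 1 =
        if j = f i then 0 else ex n k f b b' j := by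
      intro j
      unfold Qn
      split_ifs
      · rfl
      · simp [List.count_replicate]
    have qm : ∀ j, ∀ c ∈ Qn n k f a b a' b' i j, c = 0 ∨ c = 1 := by
      intro j c hc
      unfold Qn at hc
      split_ifs at hc
      · exact absurd hc (by simp)
      · rcases List.mem_append.1 hc with hc | hc
        · exact Or.inl (List.eq_of_mem_replicate hc)
        · exact Or.inr (List.eq_of_mem_replicate hc)
    obtain ⟨V, hVdef⟩ : ∃ V : ℕ → List ℕ,
        V = fun j => [] ++ pshB k f (W a b i t) j ++ Qn n k f a b a' b' i j := ⟨_, rfl⟩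
    rw [← hVdef]
    have v0 : ∀ j, (V j).count 0 = psh k f a j + if j = f i then 0 else ex n k f a a' j := by
      intro j
      rw [hVdef]
      show (([] ++ pshB k f (W a b i t) j) ++ Qn n k f a b a' b' i j).count 0 = _
      rw [List.nil_append, List.count_append, c0, q0]
    have v1 : ∀ j, (V j).count 1 = psh k f b j + if j = f i then 0 else ex n k f b b' j := by
      intro j
      rw [hVdef]
      show (([] ++ pshB k f (W a b i t) j) ++ Qn n k f a b a' b' i j).count 1 = _
      rw [List.nil_append, List.count_append, c1, q1]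
    have vm : ∀ j, ∀ c ∈ V j, c = 0 ∨ c = 1 := by
      intro j c hc
      rw [hVdef] at hc
      rcases List.mem_append.1 hc with hc | hc
      · rw [List.nil_append] at hc
        exact hmem t ht j c hc
      · exact qm j c hc
    have hOk : OkB k' V := by
      refine ⟨?_, ?_⟩
      · intro j _ c hc
        unfold NS
        rcases vm j c hc with rfl | rfl <;> omega
      · intro j _ c hc
        have hd : ∀ x y : ℕ → ℕ, 2 ≤ deg k' x → (∀ j, x j ≤ y j) → 2 ≤ deg k' y := by
          intro x y h3 h4
          refine h3.trans ?_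
          unfold deg
          exact Finset.sum_le_sum fun j _ => h4 j
        rcases vm j c hc with rfl | rfl
        · refine hd (psh k f a) _ ?_ ?_
          · rw [deg_psh' hf.le]
            exact hV.da
          · intro j
            rw [v0]
            omega
        · refine hd (psh k f b) _ ?_ ?_
          · rw [deg_psh' hf.le]
            exact hV.db
          · intro j
            rw [v1]
            omega
    -- the types
    have s0 : ∀ j ≤ k', (V j).count 0 = (W a2 b2 (f i) t j).count 0 ∨
        (2 ≤ (V j).count 0 ∧ 2 ≤ (W a2 b2 (f i) t j).count 0 ∧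
          (V j).count 0 ≡ (W a2 b2 (f i) t j).count 0 [MOD n]) := by
      intro j hj
      rw [v0, (p3 j).1]
      by_cases hji : j = f i
      · left
        rw [if_pos hji, hji, a2i, add_zero]
      · rw [if_neg hji, a2j j hji]
        exact dm_eq hβ.pos hDa hj
    have s1 : ∀ j ≤ k', (V j).count 1 = (W a2 b2 (f i) t j).count 1 ∨
        (2 ≤ (V j).count 1 ∧ 2 ≤ (W a2 b2 (f i) t j).count 1 ∧
          (V j).count 1 ≡ (W a2 b2 (f i) t j).count 1 [MOD n]) := by
      intro j hj
      rw [v1, (p3 j).2]
      by_cases hji : j = f i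
      · left
        rw [if_pos hji, hji, b2i, add_zero]
      · rw [if_neg hji, b2j j hji]
        exact dm_eq hβ.pos hDb hj
    have hEq : EqT n k' V (W a2 b2 (f i) t) := by
      intro c _ j hj
      by_cases hc0 : c = 0
      · subst hc0
        exact s0 j hj
      · by_cases hc1 : c = 1
        · subst hc1
          exact s1 j hj
        · left
          have e1 : c ∉ V j := fun h => by
            rcases vm j c h with h | h
            · exact hc0 h
            · exact hc1 h
          have e2 : c ∉ W a2 b2 (f i) t j := fun h => by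
            rcases p4 j c h with h | h
            · exact hc0 h
            · exact hc1 h
          show (V j).count c = (W a2 b2 (f i) t j).count c
          rw [List.count_eq_zero_of_not_mem e1, List.count_eq_zero_of_not_mem e2]
    refine nfe n β hβ k' V _ hOk p1 hEq ?_
    have hVi : V (f i) = pshB k f (W a b i t) (f i) := by
      rw [hVdef]
      show ([] ++ pshB k f (W a b i t) (f i)) ++ Qn n k f a b a' b' i (f i) = _
      unfold Qn
      rw [if_pos rfl, List.nil_append, List.append_nil]
    have honly : ∀ j ≤ k', 0 ∈ V j → 1 ∈ V j → j = f i := by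
      intro j hj h0 h1
      by_contra hne
      have d0 := List.count_pos_iff.2 h0
      have d1 := List.count_pos_iff.2 h1
      rcases hV2.un j hj hne with h3 | h3
      · rcases s0 j hj with h4 | h4
        · rw [(p3 j).1] at h4
          omega
        · rw [(p3 j).1] at h4
          omega
      · rcases s1 j hj with h4 | h4
        · rw [(p3 j).2] at h4
          omega
        · rw [(p3 j).2] at h4
          omega
    have hft := hfact t htt
    intro j hj x y hxy hx hy _
    rcases vm j x hx with rfl | rfl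
    · rcases vm j y hy with rfl | rfl
      · exact absurd rfl hxy
      · have := honly j hj hx hy
        subst this
        rw [hVi]
        exact hft.1.trans p5.symm
    · rcases vm j y hy with rfl | rfl
      · have := honly j hj hy hx
        subst this
        rw [hVi]
        exact hft.2.trans p6.symm
      · exact absurd rfl hxy
  have k1 := hle _ _ (key s (Or.inl rfl) hs)
  have k2 := hle _ _ (key s' (Or.inr rfl) hs')
  exact θ.trans (θ.symm k1) (θ.trans h2 k2)

/-- **PSR**. -/
theorem psr (nfe : NfeStmt) (okw : Pool.Agent.MWH.OkwStmt) (shw : ShwStmt) : PsrStmt := by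
  intro n β θ hβ hle k k' f a b a' b' i hf hV hV' hDa hDb hfi hai hbi hb'i h
  have hsx : Vs a b i Stt.xy := fun h => by cases h
  have hso : Vs a b i Stt.ov := fun _ => Or.inr hbi
  refine push_gen nfe okw shw hβ hle hf hV hV' hDa hDb hsx hso ?_ ?_ ?_ h
  · rw [psh_only hV.ik fun j hj h1 h2 => (hfi j hj h1 h2).1]
    have h1 := hV.ai
    have h2 := hV'.ai
    omega
  · have h1 := psh_ge (f := f) (a := b) hV.ik
    exact Or.inr ⟨by omega, hb'i⟩
  · intro t ht
    have htv : Vs a b i t := by
      rcases ht with rfl | rfl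
      · exact hsx
      · exact hso
    obtain ⟨o1, o2, o3, o4, o5, o6⟩ := okw k a b i t hV htv
    obtain ⟨L, R, e, hL, hR⟩ := pshB_mid f (W a b i t) i k hV.ik
    have hL0 : L = [] := by
      rw [List.eq_nil_iff_forall_not_mem]
      intro c hc
      obtain ⟨j, h1, h2, h3⟩ := hL c hc
      obtain ⟨h4, h5⟩ := hfi j (by have := hV.ik; omega) h2 (by omega)
      have h6 : b j = 0 := by
        rcases h5 with h5 | h5
        · omega
        · exact h5
      rw [W_empty (by omega) h4 h6] at h3
      exact absurd h3 (by simp)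
    have hR1 : ∀ c ∈ R, c = 1 := by
      intro c hc
      obtain ⟨j, h1, h2, h3, h4⟩ := hR c hc
      exact W_ones (by omega) (hfi j h2 h3 (by omega)).1 h4
    have hR0 : (0 : ℕ) ∉ R := fun h => absurd (hR1 0 h) (by decide)
    rw [hL0, List.nil_append] at e
    rw [e]
    constructor
    · rw [← o5, bef_iff, bef_iff, pair_app]
      constructor
      · intro h1 h2
        exact h1 (Or.inl h2)
      · rintro h1 (h2 | ⟨-, h2⟩ | h2)
        · exact h1 h2
        · exact hR0 h2
        · exact hR0 (h2.subset (by simp))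
    · rw [← o6, bef_iff, bef_iff, pair_app]
      have h1 : List.Sublist [0, 1] (W a b i t i) := by
        by_contra hc
        have h2 := o6.1 ((bef_iff _ _ _).2 hc)
        rcases ht with rfl | rfl <;> cases h2
      exact ⟨fun h2 => absurd (Or.inl h1) h2, fun h2 => absurd h1 h2⟩

end Pool.Agent.MWHP.H7
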